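import Pool.Agent.Q176.RB.Blk

/-!
# Job NFB: the number of the weights of a block of the regular wreath product
-/

set_option autoImplicit false

open scoped Classical

noncomputable section

namespace Pool.Agent.Q176.RB

open Pool.Agent.H254R3.IN hiding NN
open Pool.Agent.Y63.KR
open Pool.Agent.Q17.WR
open Pool.Agent.Q17.DC
open Pool.Agent.Q17.AM
open Pool.Agent.Q17.RB
open Pool.Agent.Y63.AWC (mult St mem_St le_St Orb deg_eq)
open Pool.Agent.Q210.RB (mul_lf inv_lf cj_rt cj_rt1 cj_lf fW indY indY_cl indY_mem isConj_pi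
  red_omega_nca omega_nca block_eq cl1 EX bc_FX shf nca_off red_omega_prf nca_base)
open Pool.Agent.Q154.AM (pdf Ic ex Ic_eq deg_le' exi)

attribute [local instance] fW

section

variable {G A : Type} [Group G] [Fintype G] [Group A] [Fintype A] {p : ℕ} [Fact p.Prime]
  {O : ValuationSubring ℂ}

/-- characters over products of weights are weights -/
theorem wt_up (hZ : S_ZPR) {β : A → Set (G → ℂ)} (hB : ∀ ω, IsBlock O (β ω))
    (hinj : Function.Injective β) (hFX : IsBlock O (FX β))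
    (hout : ∀ χ ∈ FX β, ∀ x : Wr G A A, x.right ≠ 1 → omega χ x = 0)
    {Q : A → Subgroup G} (hQ : ∀ ω, IsPGroup p (Q ω)) {f : ∀ ω, NN (Q ω) → ℂ} {a : A}
    (w : ∀ ω, IsWt p O (β (a * ω)) (Q ω) (f ω)) {φ : NN (Pa Q) → ℂ} (hφ : IsIrr φ)
    (h : mult (N0 Q) φ (th Q f) ≠ 0) : IsWt p O (FX β) (Pa Q) φ := by
  have hf : ∀ ω, IsIrr (f ω) := fun ω => (w ω).irr
  have hbi : Bi O β f a := fun ω χ hχ x => (w ω).ind χ hχ x
  have hst := st_card hB hinj hf hbi
  have hφe := (phi_eq (N0 Q) hφ (th_irr Q f hf) hst h).1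
  have hoff : ∀ y : NN (Pa Q), y ∉ N0 Q → φ y = 0 := by
    intro y hy
    rw [hφe]
    exact dif_neg hy
  refine ⟨Pa_isp hQ, hφ, ?_, ?_, ?_⟩
  · have hk := (ker_iff hf).mpr fun ω => (w ω).ker
    have h1 : ∀ y : NN (Pa Q), (y : Wr G A A) ∈ Pa Q → ∀ hy : y ∈ N0 Q,
        ∀ t : NN (Pa Q), Pool.Agent.Y63.AWC.cj (N0 Q) t (th Q f) ⟨y, hy⟩ = th Q f 1 := by
      intro y hyQ hy t
      refine hk _ ?_
      rw [MulAut.conjNormal_apply]
      exact (Subgroup.mem_normalizer_iff.mp t.2 (y : Wr G A A)).mp hyQ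
    have h2 : ∀ y : NN (Pa Q), (y : Wr G A A) ∈ Pa Q → φ y =
        (Nat.card (N0 Q) : ℂ)⁻¹ * ∑ _t : NN (Pa Q), th Q f 1 := by
      intro y hy
      have hy' : y ∈ N0 Q := hy.1
      rw [hφe]
      unfold Pool.Agent.Y63.AWC.ind
      rw [dif_pos hy']
      congr 1
      exact Finset.sum_congr rfl fun t _ => h1 y hy hy' t
    intro y hy
    rw [h2 y hy, h2 1 (Pa Q).one_mem]
  · obtain ⟨n, -, hn⟩ := hφ.deg
    choose d hd1 hd2 using fun ω => (w ω).defect
    refine ⟨n, hn, ?_⟩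
    refine (deg_facts (p := p) hφ hf h hst hn hd1).mpr ?_
    exact Finset.sum_congr rfl fun ω _ => hd2 ω
  · intro χ hχ x
    change omega χ x - Ic φ x ∈ O.nonunits
    by_cases hx : x.right = 1
    · choose g hg using fun ω => (hB ω).nonempty
      have hgi : ∀ ω, IsIrr (g (a * ω)) := fun ω => (hB _).irr _ (hg _)
      obtain ⟨h1, h2⟩ := Ic_red hZ hφ hf h (c := fun ω => g (a * ω)) hgi
        (fun ω x => hbi ω _ (hg _) x) x hx
      have h3 : nca (fun ω => g (a * ω)) = nca g := by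
        funext y
        unfold nca
        by_cases hy : y.right = 1
        · rw [if_pos hy, if_pos hy]
          refine Fintype.sum_equiv (Equiv.mulLeft a) _ _ fun b => ?_
          congr 1
          funext ω
          change g (a * (b * ω)) = g (a * b * ω)
          rw [mul_assoc]
        · rw [if_neg hy, if_neg hy]
      rw [h3] at h2
      rw [← red_eq_iff ((hFX.irr χ hχ).omega_mem O x) h1, h2]
      exact hFX.red_eq hχ ⟨g, hg, rfl⟩ x
    · have h1 : Ic φ x = 0 := by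
        rw [Ic_eq]
        refine Finset.sum_eq_zero fun z hz => ?_
        rw [Finset.mem_filter] at hz
        unfold ex
        by_cases hz' : z ∈ NN (Pa Q)
        · rw [dif_pos hz', hoff _ ?_, zero_div]
          intro h2
          rw [mem_N0] at h2
          obtain ⟨t, ht⟩ := isConj_iff.mp hz.2
          apply hx
          rw [← cj_rt1 t x, ht]
          exact h2
        · rw [dif_neg hz']
      rw [h1, hout χ hχ x hx, sub_zero]
      exact O.nonunits.zero_mem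

/-- constituents of weights are products of weights -/
theorem wt_dn (hZ : S_ZPR) (hpO : (p : ℂ) ∈ O.nonunits) {β : A → Set (G → ℂ)}
    (hB : ∀ ω, IsBlock O (β ω))
    (hinj : Function.Injective β) (hFX : IsBlock O (FX β))
    (hE : ∀ x : Wr G A A, blockCoeff (FX β) x = EX β x)
    {Q : A → Subgroup G} (hQ : ∀ ω, IsPGroup p (Q ω)) {φ : NN (Pa Q) → ℂ}
    (w : IsWt p O (FX β) (Pa Q) φ) {θ : N0 Q → ℂ} (hθ : IsIrr θ)
    (h : mult (N0 Q) φ θ ≠ 0) : ∃ (a : A) (f : ∀ ω, NN (Q ω) → ℂ),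
      (∀ ω, IsWt p O (β (a * ω)) (Q ω) (f ω)) ∧ θ = th Q f := by
  obtain ⟨f, hf, rfl⟩ := th_surj Q θ hθ
  choose c hc hcf using fun ω => exi hpO (hQ ω) (hf ω)
  obtain ⟨a, ha⟩ := exists_bi hZ hB hFX hE w.irr hf h (fun χ hχ x => w.ind χ hχ x) hc hcf
  have hbi : Bi O β f a := by
    intro ω χ hχ x
    obtain ⟨h1, h2⟩ := red_congr ((hc ω).omega_mem O x) (hcf ω x)
    rw [← red_eq_iff (((hB _).irr χ hχ).omega_mem O x) h1, ← h2]
    exact (hB _).red_eq hχ (ha ω) x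
  have hst := st_card hB hinj hf hbi
  have hker : ∀ ω, ∀ x : NN (Q ω), (x : G) ∈ Q ω → f ω x = f ω 1 := by
    rw [← ker_iff hf]
    intro y hy
    refine ker_con (N0 Q) w.irr (th_irr Q f hf) h ((Pa Q).subgroupOf (NN (Pa Q))) ?_ y hy
    intro x hx
    exact w.ker x hx
  choose d hd0 hd using fun ω => (hf ω).deg
  obtain ⟨n, hn1, hn2⟩ := w.defect
  have h1 := (deg_facts (p := p) w.irr hf h hst hn1 hd).mp hn2
  have hle : ∀ ω ∈ (Finset.univ : Finset A), (Nat.card (Q ω)).factorization p +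
      (d ω).factorization p ≤ (Nat.card (NN (Q ω))).factorization p := fun ω _ =>
    deg_le' p (hf ω) (hker ω) (hd ω)
  have heq := (Finset.sum_eq_sum_iff_of_le hle).mp h1.symm
  exact ⟨a, f, fun ω => ⟨hQ ω, hf ω, hker ω, ⟨d ω, hd ω, (heq ω (Finset.mem_univ ω)).symm⟩,
    hbi ω⟩, rfl⟩

end

/-- JOB NFB -/
theorem t_NFB : S_ZPR → S_FXI → S_FXB → S_NFB := by
  intro hZ hI hX G A _ _ _ _ p _ O hpO β hB hinj D hD Q hQ
  obtain ⟨hFX, -, hch⟩ := hX G A p O hpO β hB hinj D hD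
  have hβ : ∀ ω, ∀ χ ∈ β ω, IsIrr χ := fun ω => (hB ω).irr
  have hdis : ∀ ω ω', ω ≠ ω' → Disjoint (β ω) (β ω') := by
    intro ω ω' hne
    rw [Set.disjoint_left]
    intro χ h h'
    exact hne (hinj (block_eq (hB ω) (hB ω') h h'))
  obtain ⟨-, hij⟩ := hI G A β hβ hdis
  have hE : ∀ x : Wr G A A, blockCoeff (FX β) x = EX β x := bc_FX β hβ hij
  have hout : ∀ χ ∈ FX β, ∀ x : Wr G A A, x.right ≠ 1 → omega χ x = 0 :=
    fun χ hχ => (hch χ hχ).1
  let T : Finset (N0 Q → ℂ) := (Pool.Agent.Helper884.IC.Irr (N0 Q)).filter fun θ =>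
    ∃ (a : A) (f : ∀ ω, NN (Q ω) → ℂ), (∀ ω, IsWt p O (β (a * ω)) (Q ω) (f ω)) ∧ θ = th Q f
  let W : Finset (NN (Pa Q) → ℂ) := (Pool.Agent.Helper884.IC.Irr (NN (Pa Q))).filter fun φ =>
    IsWt p O (FX β) (Pa Q) φ
  have hcount : T.card * Nat.card (N0 Q) = W.card * Nat.card (NN (Pa Q)) := by
    refine clif_count (N0 Q) T W ?_ ?_ ?_ ?_
    · intro θ hθ
      obtain ⟨h1, a, f, w, rfl⟩ := Finset.mem_filter.mp hθ
      refine ⟨mem_Irr.mp h1, st_card (O := O) hB hinj (fun ω => (w ω).irr) (a := a) ?_⟩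
      exact fun ω χ hχ x => (w ω).ind χ hχ x
    · intro φ hφ
      exact mem_Irr.mp (Finset.mem_filter.mp hφ).1
    · intro θ hθ φ hφ hm
      obtain ⟨h1, a, f, w, rfl⟩ := Finset.mem_filter.mp hθ
      exact Finset.mem_filter.mpr ⟨mem_Irr.mpr hφ, wt_up hZ hB hinj hFX hout hQ w hφ hm⟩
    · intro φ hφ θ hθ hm
      obtain ⟨h1, w⟩ := Finset.mem_filter.mp hφ
      obtain ⟨a, f, w', h2⟩ := wt_dn hZ hpO hB hinj hFX hE hQ w hθ hm
      exact Finset.mem_filter.mpr ⟨mem_Irr.mpr hθ, a, f, w', h2⟩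
  have hW : nwq p O (FX β) (Pa Q) = W.card := by
    refine Nat.subtype_card W fun φ => ?_
    rw [Finset.mem_filter]
    exact ⟨fun h => h.2, fun h => ⟨mem_Irr.mpr h.irr, h⟩⟩
  have hT : T.card = ∑ a : A, ∏ ω, nwq p O (β (a * ω)) (Q ω) := by
    have hfin : ∀ (a ω : A), Finite {φ : NN (Q ω) → ℂ // IsWt p O (β (a * ω)) (Q ω) φ} :=
      fun a ω => Pool.Agent.Q154.AM.finite_wt (Q ω)
    have h1 : Nat.card {θ : N0 Q → ℂ // ∃ (a : A) (f : ∀ ω, NN (Q ω) → ℂ),
        (∀ ω, IsWt p O (β (a * ω)) (Q ω) (f ω)) ∧ θ = th Q f} = T.card := by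
      refine Nat.subtype_card T fun θ => ?_
      rw [Finset.mem_filter]
      refine ⟨fun h => h.2, fun h => ⟨?_, h⟩⟩
      obtain ⟨a, f, w, rfl⟩ := h
      exact mem_Irr.mpr (th_irr Q f fun ω => (w ω).irr)
    have h2 : Nat.card ((a : A) × (∀ ω, {φ : NN (Q ω) → ℂ // IsWt p O (β (a * ω)) (Q ω) φ})) =
        Nat.card {θ : N0 Q → ℂ // ∃ (a : A) (f : ∀ ω, NN (Q ω) → ℂ),
        (∀ ω, IsWt p O (β (a * ω)) (Q ω) (f ω)) ∧ θ = th Q f} := by
      refine Nat.card_eq_of_bijective (fun s => ⟨th Q fun ω => (s.2 ω).1, s.1,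
        fun ω => (s.2 ω).1, fun ω => (s.2 ω).2, rfl⟩) ⟨?_, ?_⟩
      · rintro ⟨a, f⟩ ⟨a', f'⟩ h
        have h3 : th Q (fun ω => (f ω).1) = th Q fun ω => (f' ω).1 := congrArg Subtype.val h
        have h4 := th_inj Q _ _ (fun ω => (f ω).2.irr) (fun ω => (f' ω).2.irr) h3
        have h5 : β (a * 1) = β (a' * 1) := by
          refine blk_uniq (hB _) (hB _) (Ic (f 1).1) (fun χ hχ x => (f 1).2.ind χ hχ x) ?_
          have h6 : (f 1).1 = (f' 1).1 := congrFun h4 1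
          rw [h6]
          exact fun χ hχ x => (f' 1).2.ind χ hχ x
        have h6 : a = a' := mul_right_cancel (hinj h5)
        subst h6
        have h7 : f = f' := funext fun ω => Subtype.ext (congrFun h4 ω)
        rw [h7]
      · rintro ⟨θ, a, f, w, rfl⟩
        exact ⟨⟨a, fun ω => ⟨f ω, w ω⟩⟩, rfl⟩
    rw [← h1, ← h2, Nat.card_sigma]
    refine Finset.sum_congr rfl fun a _ => ?_
    rw [Nat.card_pi]
    rfl
  have h1 : ∀ a : A, ∏ ω, (Nat.card (Subgroup.normalizer (Q ω : Set G)) *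
      nwq p O (β (a * ω)) (Q ω)) = Nat.card (N0 Q) * ∏ ω, nwq p O (β (a * ω)) (Q ω) := by
    intro a
    rw [Finset.prod_mul_distrib, card_N0]
  rw [Finset.sum_congr rfl fun a _ => h1 a, ← Finset.mul_sum, ← hT, hW]
  have h2 : Nat.card (Subgroup.normalizer (Pa Q : Set (Wr G A A))) = Nat.card (NN (Pa Q)) := rfl
  rw [h2, mul_comm, ← hcount, mul_comm]

end Pool.Agent.Q176.RB
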