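import Pool.Agent.Q176.RB.Wts

/-!
# Weights with product subgroups: from the wreath product to the factors and back
-/

set_option autoImplicit false

open scoped Classical

noncomputable section

namespace Pool.Agent.Q176.RB

open Pool.Agent.H254R3.IN hiding NN
open Pool.Agent.Y63.KR
open Pool.Agent.Q17.WR
open Pool.Agent.Q17.DC
open Pool.Agent.Q17.AM
open Pool.Agent.Q17.RB
open Pool.Agent.Y63.AWC (mult St mem_St le_St Orb deg_eq)
open Pool.Agent.Q210.RB (mul_lf inv_lf cj_rt cj_rt1 cj_lf fW indY indY_cl indY_mem isConj_pi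
  red_omega_nca omega_nca block_eq cl1 EX bc_FX shf nca_off red_omega_prf nca_base)
open Pool.Agent.Q154.AM (pdf Ic ex Ic_eq deg_le' exi)

attribute [local instance] fW

variable {G A : Type} [Group G] [Fintype G] [Group A] [Fintype A] {p : ℕ} [Fact p.Prime]
  {O : ValuationSubring ℂ}

omit [Fintype G] in
lemma prf_one (c : A → G → ℂ) : prf c 1 = ∏ ω, c ω 1 := rfl

lemma EX_base (β : A → Set (G → ℂ)) (m : A → G) :
    EX β (⟨m, 1⟩ : Wr G A A) = ∑ a : A, ∏ ω, blockCoeff (β (a * ω)) (m ω) := by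
  unfold EX
  rw [if_pos rfl]
  refine Fintype.sum_equiv (Equiv.inv A) _ _ fun a => ?_
  refine Fintype.prod_equiv (Equiv.mulLeft a) _ _ fun ω => ?_
  change blockCoeff (β ω) (m (a * ω)) = blockCoeff (β (a⁻¹ * (a * ω))) (m (a * ω))
  rw [inv_mul_cancel_left]

/-- the coefficients of the block of the wreath product, tested on a character of the base
group -/
lemma Om_EX {β : A → Set (G → ℂ)} (hβ : ∀ ω, ∀ χ ∈ β ω, IsIrr χ) {c : A → G → ℂ}
    (hc : ∀ ω, IsIrr (c ω)) : Om (fun m : A → G => EX β (⟨m, 1⟩ : Wr G A A)) (prf c) =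
      ∑ a : A, if ∀ ω, c ω ∈ β (a * ω) then 1 else 0 := by
  have h1 : ∀ m : A → G, EX β (⟨m, 1⟩ : Wr G A A) * prf c m =
      ∑ a : A, ∏ ω, (blockCoeff (β (a * ω)) (m ω) * c ω (m ω)) := by
    intro m
    rw [EX_base, Finset.sum_mul]
    refine Finset.sum_congr rfl fun a _ => ?_
    rw [Finset.prod_mul_distrib]
    rfl
  have h2 : ∀ a : A, ∑ m : A → G, ∏ ω, (blockCoeff (β (a * ω)) (m ω) * c ω (m ω)) =
      ∏ ω, ∑ z : G, blockCoeff (β (a * ω)) z * c ω z := by
    intro a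
    rw [Finset.prod_univ_sum]
    refine Finset.sum_congr ?_ fun _ _ => rfl
    ext m
    simp
  unfold Om
  rw [Finset.sum_congr rfl fun m _ => h1 m, Finset.sum_comm,
    Finset.sum_congr rfl fun a _ => h2 a, Finset.sum_div]
  refine Finset.sum_congr rfl fun a _ => ?_
  rw [prf_one, ← Finset.prod_div_distrib]
  have h3 : ∀ ω, (∑ z : G, blockCoeff (β (a * ω)) z * c ω z) / c ω 1 =
      if c ω ∈ β (a * ω) then 1 else 0 := fun ω => Om_blockCoeff (hβ (a * ω)) (hc ω)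
  rw [Finset.prod_congr rfl fun ω _ => h3 ω]
  by_cases h4 : ∀ ω, c ω ∈ β (a * ω)
  · rw [if_pos h4]
    exact Finset.prod_eq_one fun ω _ => if_pos (h4 ω)
  · rw [if_neg h4]
    push Not at h4
    obtain ⟨ω, hω⟩ := h4
    exact Finset.prod_eq_zero (Finset.mem_univ ω) (if_neg hω)

/-- the blocks of the components -/
theorem exists_bi (hZ : S_ZPR) {β : A → Set (G → ℂ)} (hB : ∀ ω, IsBlock O (β ω))
    (hFX : IsBlock O (FX β)) (hE : ∀ x : Wr G A A, blockCoeff (FX β) x = EX β x)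
    {Q : A → Subgroup G} {φ : NN (Pa Q) → ℂ} (hφ : IsIrr φ)
    {f : ∀ ω, NN (Q ω) → ℂ} (hf : ∀ ω, IsIrr (f ω)) (h : mult (N0 Q) φ (th Q f) ≠ 0)
    (hind : ∀ χ ∈ FX β, ∀ x : Wr G A A, omega χ x - Ic φ x ∈ O.nonunits)
    {c : A → G → ℂ} (hc : ∀ ω, IsIrr (c ω))
    (hcf : ∀ ω x, omega (c ω) x - Ic (f ω) x ∈ O.nonunits) : ∃ a : A, ∀ ω, c ω ∈ β (a * ω) := by
  obtain ⟨χ, hχ⟩ := hFX.nonempty
  have hχi := hFX.irr χ hχ
  have hcl := blockCoeff_cl hFX.irr
  have hmem : ∀ x : Wr G A A, blockCoeff (FX β) x ∈ O := blockCoeff_mem hFX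
  have h1 := (red_Om (O := O) hχi hcl hmem).2
  rw [Om_blockCoeff hFX.irr hχi, if_pos hχ, red_one] at h1
  have hEcl : IsCl (fun m : A → G => EX β (⟨m, 1⟩ : Wr G A A)) := by
    intro g y
    show EX β (⟨y * g * y⁻¹, 1⟩ : Wr G A A) = EX β (⟨g, 1⟩ : Wr G A A)
    rw [← hE, ← hE]
    refine (hcl.isConj ?_).symm
    rw [cl1 _ _ rfl]
    exact ⟨rfl, 1, fun ω => isConj_iff.mpr ⟨y ω, by rw [one_mul]; rfl⟩⟩
  have hEm : ∀ m : A → G, EX β (⟨m, 1⟩ : Wr G A A) ∈ O := fun m => by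
    rw [← hE]
    exact hmem _
  have h2 := (red_Om (O := O) ((hZ G A).1 c hc) hEcl hEm).2
  have h3 : ∀ K : ConjClasses (Wr G A A),
      red O (blockCoeff (FX β) (rep K)) * red O (omega χ (rep K)) =
      ∑ L : ConjClasses (A → G), red O (blockCoeff (FX β) (rep K)) *
        (red O (indY (rep K) (rep L)) * ∏ ω, red O (omega (c ω) (rep L ω))) := by
    intro K
    by_cases hK : (rep K).right = 1
    · obtain ⟨h4, h5⟩ := Ic_red hZ hφ hf h hc hcf (rep K) hK
      rw [(red_eq_iff (hχi.omega_mem O (rep K)) h4).mpr (hind χ hχ (rep K)), h5,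
        red_omega_nca hZ c hc (rep K) hK, Finset.mul_sum]
    · have h4 : red O (blockCoeff (FX β) (rep K)) = 0 := by
        rw [hE]
        unfold EX
        rw [if_neg hK, red_zero]
      rw [h4, zero_mul]
      symm
      exact Finset.sum_eq_zero fun L _ => zero_mul _
  have h6 : ∀ L : ConjClasses (A → G), ∑ K : ConjClasses (Wr G A A),
      red O (blockCoeff (FX β) (rep K)) *
        (red O (indY (rep K) (rep L)) * ∏ ω, red O (omega (c ω) (rep L ω))) =
      red O (EX β (⟨rep L, 1⟩ : Wr G A A)) * red O (omega (prf c) (rep L)) := by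
    intro L
    rw [Finset.sum_eq_single (ConjClasses.mk (⟨rep L, 1⟩ : Wr G A A))]
    · have h7 : IsConj (rep (ConjClasses.mk (⟨rep L, 1⟩ : Wr G A A))) (⟨rep L, 1⟩ : Wr G A A) :=
        rep_mk _
      have h8 : indY (rep (ConjClasses.mk (⟨rep L, 1⟩ : Wr G A A))) (rep L) = 1 := if_pos h7
      rw [h8, red_one, one_mul, hcl.isConj h7, hE, red_omega_prf c hc]
    · intro K _ hK
      have h8 : indY (rep K) (rep L) = 0 := by
        refine if_neg fun h9 => hK ?_
        rw [← mk_rep K]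
        exact ConjClasses.mk_eq_mk_iff_isConj.mpr h9
      rw [h8, red_zero, zero_mul, mul_zero]
    · intro h9
      exact absurd (Finset.mem_univ _) h9
  rw [Finset.sum_congr rfl fun K _ => h3 K, Finset.sum_comm,
    Finset.sum_congr rfl fun L _ => h6 L, ← h2, Om_EX (fun ω => (hB ω).irr) hc] at h1
  by_contra hcon
  push Not at hcon
  rw [Finset.sum_eq_zero fun a _ => if_neg (by
    obtain ⟨ω, hω⟩ := hcon a
    exact fun h9 => hω (h9 ω)), red_zero] at h1
  exact one_ne_zero h1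

/-- kernels -/
lemma ker_iff {Q : A → Subgroup G} {f : ∀ ω, NN (Q ω) → ℂ} (hf : ∀ ω, IsIrr (f ω)) :
    (∀ y : N0 Q, ((y : NN (Pa Q)) : Wr G A A) ∈ Pa Q → th Q f y = th Q f 1) ↔
      ∀ ω, ∀ x : NN (Q ω), (x : G) ∈ Q ω → f ω x = f ω 1 := by
  constructor
  · intro h ω x hx
    have h1 := h ((e0 Q).symm (Pi.mulSingle ω x)) (by
      refine ⟨rfl, fun ω' => ?_⟩
      change (((Pi.mulSingle ω x : ∀ ω, NN (Q ω)) ω' : NN (Q ω')) : G) ∈ Q ω'
      by_cases h3 : ω' = ω
      · subst h3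
        rw [Pi.mulSingle_eq_same]
        exact hx
      · rw [Pi.mulSingle_eq_of_ne h3]
        exact (Q ω').one_mem)
    rw [th_val, th_one, MulEquiv.apply_symm_apply,
      ← Finset.mul_prod_erase Finset.univ _ (Finset.mem_univ ω),
      ← Finset.mul_prod_erase Finset.univ (fun ω => f ω 1) (Finset.mem_univ ω)] at h1
    have h4 : ∏ ω' ∈ Finset.univ.erase ω, f ω' ((Pi.mulSingle ω x : ∀ ω, NN (Q ω)) ω') =
        ∏ ω' ∈ Finset.univ.erase ω, f ω' 1 :=
      Finset.prod_congr rfl fun ω' hω' => by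
        rw [Pi.mulSingle_eq_of_ne (Finset.ne_of_mem_erase hω')]
    rw [h4] at h1
    have h5 := mul_right_cancel₀ (Finset.prod_ne_zero_iff.mpr fun ω' _ => (hf ω').one_ne) h1
    rwa [Pi.mulSingle_eq_same] at h5
  · intro h y hy
    rw [th_val, th_one]
    exact Finset.prod_congr rfl fun ω _ => h ω _ (hy.2 ω)

/-- degrees -/
lemma deg_facts {Q : A → Subgroup G} {φ : NN (Pa Q) → ℂ} (hφ : IsIrr φ)
    {f : ∀ ω, NN (Q ω) → ℂ} (hf : ∀ ω, IsIrr (f ω)) (h : mult (N0 Q) φ (th Q f) ≠ 0)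
    (hst : Nat.card (St (N0 Q) (th Q f)) = Nat.card (N0 Q)) {n : ℕ} (hn : (n : ℂ) = φ 1)
    {d : A → ℕ} (hd : ∀ ω, (d ω : ℂ) = f ω 1) :
    (((Nat.card (NN (Pa Q))).factorization p =
      (Nat.card (Pa Q)).factorization p + n.factorization p) ↔
    ∑ ω, (Nat.card (NN (Q ω))).factorization p =
      ∑ ω, ((Nat.card (Q ω)).factorization p + (d ω).factorization p)) := by
  have hd0 : ∀ ω, d ω ≠ 0 := by
    intro ω h0
    have h1 := hd ω
    rw [h0, Nat.cast_zero] at h1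
    exact (hf ω).one_ne h1.symm
  have hm := (phi_eq (N0 Q) hφ (th_irr Q f hf) hst h).2
  have h1 : n = (Orb (N0 Q) (th Q f)).card * ∏ ω, d ω := by
    have h2 : th Q f 1 = ((∏ ω, d ω : ℕ) : ℂ) := by
      rw [th_one]
      push_cast
      exact Finset.prod_congr rfl fun ω _ => (hd ω).symm
    have h3 := deg_eq (N0 Q) hφ (th_irr Q f hf) h hn.symm h2
    rw [hm, mul_one] at h3
    exact h3
  have h2 := card_orb (N0 Q) hst
  have hO : (Orb (N0 Q) (th Q f)).card ≠ 0 := by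
    intro h0
    rw [h0, zero_mul] at h2
    exact Nat.card_pos.ne' h2.symm
  have hfp : ∀ (n : A → ℕ), (∀ ω, n ω ≠ 0) →
      (∏ ω, n ω).factorization p = ∑ ω, (n ω).factorization p := by
    intro n hn
    rw [Nat.factorization_prod fun ω _ => hn ω, Finsupp.finset_sum_apply]
  rw [← h2, card_N0, card_Pa, h1, Nat.factorization_mul hO (Finset.prod_ne_zero_iff.mpr
    fun ω _ => Nat.card_pos.ne'), Nat.factorization_mul hO (Finset.prod_ne_zero_iff.mpr
    fun ω _ => hd0 ω), Finsupp.add_apply, Finsupp.add_apply, hfp _ fun ω => Nat.card_pos.ne',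
    hfp _ fun ω => Nat.card_pos.ne', hfp _ hd0, Finset.sum_add_distrib]
  omega

end Pool.Agent.Q176.RB
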