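import Pool.Agent.Y63.AWC.Z1
import Pool.Agent.Q176.DC.DZV

/-!
# Characters over a normal subgroup which is the stabiliser of the characters below
-/

set_option autoImplicit false

open scoped BigOperators Classical
open Pool.Agent.Helper884.IC

noncomputable section

namespace Pool.Agent.Q176.RB

open Pool.Agent.Y63.AWC

variable {X : Type} [Group X] [Fintype X] (M : Subgroup X) [hM : M.Normal]

/-- an irreducible character over a character with the stabiliser `M` is the induced one -/
theorem phi_eq {phi : X → ℂ} {theta : M → ℂ} (hp : IsIrrChar phi) (ht : IsIrrChar theta)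
    (hst : Nat.card (St M theta) = Nat.card M) (h : mult M phi theta ≠ 0) :
    phi = ind M theta ∧ mult M phi theta = 1 := by
  obtain ⟨h1, h2⟩ := unique_over M ht hst
  have h3 : mult M phi theta = 1 := by
    have := h2 phi (mem_Irr.mpr hp)
    omega
  refine ⟨?_, h3⟩
  rw [ind_eq M theta ht]
  have h4 : ∀ chi ∈ Irr X, chi ≠ phi → mult M chi theta = 0 := by
    intro chi hc hne
    by_contra h5
    obtain ⟨a, ha⟩ := Finset.card_eq_one.mp h1
    have h6 : chi ∈ (Irr X).filter fun chi => mult M chi theta ≠ 0 :=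
      Finset.mem_filter.mpr ⟨hc, h5⟩
    have h7 : phi ∈ (Irr X).filter fun chi => mult M chi theta ≠ 0 :=
      Finset.mem_filter.mpr ⟨mem_Irr.mpr hp, h⟩
    rw [ha, Finset.mem_singleton] at h6 h7
    exact hne (h6.trans h7.symm)
  rw [Finset.sum_eq_single phi]
  · rw [h3, Nat.cast_one, one_smul]
  · intro chi hc hne
    rw [h4 chi hc hne, Nat.cast_zero, zero_smul]
  · intro h5
    exact absurd (mem_Irr.mpr hp) h5

/-- the orbit has the size of the index -/
theorem card_orb {theta : M → ℂ} (hst : Nat.card (St M theta) = Nat.card M) :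
    (Orb M theta).card * Nat.card M = Nat.card X := by
  rw [← hst]
  exact card_Orb_mul M theta

/-- invariant sums over `M` agree for a character and its constituents -/
theorem cov {phi : X → ℂ} {theta : M → ℂ} (hp : IsIrrChar phi) (ht : IsIrrChar theta)
    (h : mult M phi theta ≠ 0) (c : X → ℂ) (hc : ∀ x y : X, c (x * y * x⁻¹) = c y) :
    ∑ y : M, c y * (phi y / phi 1) = ∑ y : M, c y * (theta y / theta 1) := by
  have hR : ∀ y : M, phi y = ∑ t ∈ Orb M theta, (mult M phi theta : ℂ) * t y := by
    intro y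
    have h2 := congrFun (res_eq M hp) y
    rw [Finset.sum_apply] at h2
    have h3 : ∑ t ∈ Irr M, ((mult M phi t : ℂ) • t) y
        = ∑ t ∈ (Irr M).filter fun t => mult M phi t ≠ 0, ((mult M phi t : ℂ) • t) y := by
      rw [Finset.sum_filter_of_ne]
      intro t _ ht hz
      apply ht
      simp [hz]
    rw [h3, support_eq M hp ht h] at h2
    change phi y = _ at h2
    rw [h2]
    refine Finset.sum_congr rfl fun t ht' => ?_
    obtain ⟨x, -, rfl⟩ := Finset.mem_image.mp ht'
    rw [Pi.smul_apply, smul_eq_mul, mult_cj M hp ht]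
  have h1 : ∀ t ∈ Orb M theta, t 1 = theta 1 := by
    intro t ht'
    obtain ⟨x, -, rfl⟩ := Finset.mem_image.mp ht'
    unfold cj
    rw [map_one]
  have h2 : ∀ t ∈ Orb M theta, ∑ y : M, c y * t y = ∑ y : M, c y * theta y := by
    intro t ht'
    obtain ⟨x, -, rfl⟩ := Finset.mem_image.mp ht'
    refine Fintype.sum_equiv (MulAut.conjNormal x).toEquiv _ _ fun m => ?_
    simp only [cj, MulEquiv.toEquiv_eq_coe, EquivLike.coe_coe]
    congr 1
    rw [MulAut.conjNormal_apply, hc]
  have hO : (Orb M theta).card ≠ 0 := by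
    rw [Finset.card_ne_zero]
    exact ⟨_, Finset.mem_image.mpr ⟨1, Finset.mem_univ _, rfl⟩⟩
  have hm : (mult M phi theta : ℂ) ≠ 0 := by exact_mod_cast h
  have hO' : ((Orb M theta).card : ℂ) ≠ 0 := by exact_mod_cast hO
  have ht1 : theta 1 ≠ 0 := one_ne ht
  have h3 : phi 1 = (Orb M theta).card * ((mult M phi theta : ℂ) * theta 1) := by
    have h4 := hR 1
    rw [Finset.sum_congr rfl fun t ht' => by rw [h1 t ht'], Finset.sum_const, nsmul_eq_mul] at h4
    exact h4
  have h4 : ∑ y : M, c y * phi y =
      (Orb M theta).card * ((mult M phi theta : ℂ) * ∑ y : M, c y * theta y) := by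
    have h5 : ∀ y : M, c y * phi y = ∑ t ∈ Orb M theta, (mult M phi theta : ℂ) * (c y * t y) := by
      intro y
      rw [hR y, Finset.mul_sum]
      exact Finset.sum_congr rfl fun t _ => by ring
    rw [Finset.sum_congr rfl fun y _ => h5 y, Finset.sum_comm,
      Finset.sum_congr rfl fun t ht' => by rw [← Finset.mul_sum, h2 t ht'], Finset.sum_const,
      nsmul_eq_mul]
  have h5 : ∀ (ψ : M → ℂ) (v : ℂ), ∑ y : M, c y * (ψ y / v) = (∑ y : M, c y * ψ y) / v := by
    intro ψ v
    rw [Finset.sum_div]
    exact Finset.sum_congr rfl fun y _ => (mul_div_assoc _ _ _).symm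
  have h6 := h5 (fun y : M => phi y) (phi 1)
  rw [h6, h5, h4, h3]
  rw [mul_div_mul_left _ _ hO', mul_div_mul_left _ _ hm]

/-- the kernel of a constituent -/
theorem ker_con {phi : X → ℂ} {theta : M → ℂ} (hp : IsIrrChar phi) (ht : IsIrrChar theta)
    (h : mult M phi theta ≠ 0) (Q : Subgroup X) (hQ : ∀ x ∈ Q, phi x = phi 1) :
    ∀ y : M, (y : X) ∈ Q → theta y = theta 1 := by
  have hB : B (res M phi) theta ≠ 0 := by
    rw [mult_spec M hp ht]
    exact_mod_cast h
  obtain ⟨V, _, _, _, rho, hr, rfl⟩ := hp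
  obtain ⟨W, _, _, _, sigma, hs, rfl⟩ := ht
  have : Invertible (Nat.card M : ℂ) := invertibleOfNonzero cardG_ne
  let rho' : Representation ℂ M V := rho.comp M.subtype
  have h1 := Representation.card_inv_mul_sum_char_mul_char_eq_finrank sigma rho'
  have h2 : (Module.finrank ℂ (Representation.IntertwiningMap sigma rho') : ℂ) ≠ 0 := by
    rw [← h1]
    exact hB
  have h3 : Module.finrank ℂ (Representation.IntertwiningMap sigma rho') ≠ 0 := by
    exact_mod_cast h2
  have : Nontrivial (Representation.IntertwiningMap sigma rho') := by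
    by_contra hn
    rw [not_nontrivial_iff_subsingleton] at hn
    exact h3 (Module.finrank_zero_of_subsingleton)
  obtain ⟨f, hf⟩ := exists_ne (0 : Representation.IntertwiningMap sigma rho')
  have := hs
  have hinj : Function.Injective f :=
    (Representation.IsIrreducible.injective_or_eq_zero f).resolve_right hf
  have h4 := Pool.Agent.Q176.DC.DZV.triv_of_char rho Q hQ
  intro y hy
  have h5 : sigma y = 1 := by
    ext v
    apply hinj
    rw [Representation.IntertwiningMap.isIntertwining]
    change rho (y : X) (f v) = f v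
    rw [h4 y hy]
    rfl
  change LinearMap.trace ℂ W (sigma y) = LinearMap.trace ℂ W (sigma 1)
  have h6 : sigma 1 = 1 := map_one sigma
  rw [h5, h6]

/-- the count -/
theorem clif_count (T : Finset (M → ℂ)) (W : Finset (X → ℂ))
    (hT : ∀ theta ∈ T, IsIrrChar theta ∧ Nat.card (St M theta) = Nat.card M)
    (hW : ∀ phi ∈ W, IsIrrChar phi)
    (h1 : ∀ theta ∈ T, ∀ phi : X → ℂ, IsIrrChar phi → mult M phi theta ≠ 0 → phi ∈ W)
    (h2 : ∀ phi ∈ W, ∀ theta : M → ℂ, IsIrrChar theta → mult M phi theta ≠ 0 → theta ∈ T) :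
    T.card * Nat.card M = W.card * Nat.card X := by
  have key : ∑ theta ∈ T, ∑ phi ∈ W, mult M phi theta = T.card := by
    rw [Finset.card_eq_sum_ones]
    refine Finset.sum_congr rfl fun theta ht => ?_
    obtain ⟨hti, hst⟩ := hT theta ht
    obtain ⟨h3, h4⟩ := unique_over M hti hst
    obtain ⟨a, ha⟩ := Finset.card_eq_one.mp h3
    have ha' : a ∈ (Irr X).filter fun chi => mult M chi theta ≠ 0 := by
      rw [ha]
      exact Finset.mem_singleton_self a
    rw [Finset.mem_filter] at ha'
    have hai := mem_Irr.mp ha'.1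
    rw [Finset.sum_eq_single a]
    · exact (phi_eq M hai hti hst ha'.2).2
    · intro phi hphi hne
      by_contra h5
      have h6 : phi ∈ (Irr X).filter fun chi => mult M chi theta ≠ 0 :=
        Finset.mem_filter.mpr ⟨mem_Irr.mpr (hW phi hphi), h5⟩
      rw [ha, Finset.mem_singleton] at h6
      exact hne h6
    · intro h5
      exact absurd (h1 theta ht a hai ha'.2) h5
  rw [← key, Finset.sum_comm, Finset.sum_mul, Finset.card_eq_sum_ones, Finset.sum_mul]
  refine Finset.sum_congr rfl fun phi hphi => ?_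
  have hpi := hW phi hphi
  obtain ⟨theta, hti, hm⟩ := mult_exists M hpi
  have htT := h2 phi hphi theta hti hm
  have hst := (hT theta htT).2
  have h5 : ∑ t ∈ T, mult M phi t = (Orb M theta).card := by
    rw [Finset.card_eq_sum_ones]
    symm
    rw [← support_eq M hpi hti hm]
    have hsub : ((Irr M).filter fun t => mult M phi t ≠ 0) ⊆ T := by
      intro t ht
      rw [Finset.mem_filter] at ht
      exact h2 phi hphi t (mem_Irr.mp ht.1) ht.2
    rw [← Finset.sum_subset hsub (f := fun t => mult M phi t)]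
    · refine Finset.sum_congr rfl fun t ht => ?_
      have ht' := ht
      rw [Finset.mem_filter] at ht'
      have htT' := hsub ht
      exact (phi_eq M hpi (mem_Irr.mp ht'.1) (hT t htT').2 ht'.2).2.symm
    · intro t ht hnt
      by_contra h6
      exact hnt (Finset.mem_filter.mpr ⟨mem_Irr.mpr (hT t ht).1, h6⟩)
  rw [h5, one_mul]
  exact card_orb M hst

end Pool.Agent.Q176.RB
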