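import Pool.Agent.Q17.RB.Stm3
import Pool.Agent.Q210.RB.FXB
import Pool.Agent.Q154.AM.Prd
import Pool.Agent.Q154.AM.Wti
import Pool.Agent.Q261.DC.WTS
import Pool.Agent.Q176.RB.Clif

/-!
# Product subgroups of the base group of a regular wreath product and their normalisers
-/

set_option autoImplicit false

open scoped Classical

noncomputable section

namespace Pool.Agent.Q176.RB

open Pool.Agent.H254R3.IN hiding NN
open Pool.Agent.Y63.KR
open Pool.Agent.Q17.WR
open Pool.Agent.Q17.DC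
open Pool.Agent.Q17.AM
open Pool.Agent.Q17.RB
open Pool.Agent.Q210.RB (mul_lf inv_lf cj_rt cj_rt1 cj_lf)
open Pool.Agent.Q154.AM (pdf Ic ex Ic_eq)

section

variable {G A : Type} [Group G] [Group A]

instance finite_Wr [Finite G] [Finite A] : Finite (Wr G A A) :=
  Finite.of_injective (fun x : Wr G A A => (x.left, x.right)) fun x y h =>
    SemidirectProduct.ext (congrArg Prod.fst h) (congrArg Prod.snd h)

/-- one component -/
def sg (ω₀ : A) (g : G) : Wr G A A := ⟨Pi.mulSingle ω₀ g, 1⟩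

lemma mem_Pa {Q : A → Subgroup G} {x : Wr G A A} :
    x ∈ Pa Q ↔ x.right = 1 ∧ ∀ ω, x.left ω ∈ Q ω := Iff.rfl

lemma sg_mem {Q : A → Subgroup G} {ω₀ : A} {g : G} : sg ω₀ g ∈ Pa Q ↔ g ∈ Q ω₀ := by
  rw [mem_Pa]
  constructor
  · intro h
    have h1 := h.2 ω₀
    change (Pi.mulSingle ω₀ g : A → G) ω₀ ∈ Q ω₀ at h1
    rwa [Pi.mulSingle_eq_same] at h1
  · intro h
    refine ⟨rfl, fun ω => ?_⟩
    change (Pi.mulSingle ω₀ g : A → G) ω ∈ Q ω
    by_cases h1 : ω = ω₀
    · subst h1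
      rw [Pi.mulSingle_eq_same]
      exact h
    · rw [Pi.mulSingle_eq_of_ne h1]
      exact (Q ω).one_mem

lemma Pa_inj {Q Q' : A → Subgroup G} (h : Pa Q = Pa Q') : Q = Q' := by
  funext ω
  ext g
  rw [← sg_mem (Q := Q), ← sg_mem (Q := Q'), h]

/-- conjugates of products -/
lemma conj_Pa (t : Wr G A A) (Q : A → Subgroup G) :
    conjSub t (Pa Q) = Pa fun ω => conjSub (t.left ω) (Q (t.right⁻¹ * ω)) := by
  ext x
  rw [mem_conjSub, mem_Pa, mem_Pa]
  have h1 : (t⁻¹ * x * t).right = 1 ↔ x.right = 1 := by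
    have h2 := cj_rt1 t⁻¹ x
    rwa [inv_inv] at h2
  rw [h1]
  refine and_congr_right fun hx => ?_
  have h2 : ∀ ω, (t⁻¹ * x * t).left ω = (t.left (t.right * ω))⁻¹ * x.left (t.right * ω) *
      t.left (t.right * ω) := by
    intro ω
    have h3 := cj_lf t⁻¹ x hx ω
    rw [inv_inv] at h3
    rw [h3, inv_lf, SemidirectProduct.inv_right, inv_inv, inv_inv]
  constructor
  · intro h ω
    have h3 := h (t.right⁻¹ * ω)
    rw [h2, mul_inv_cancel_left] at h3
    rw [mem_conjSub]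
    exact h3
  · intro h ω
    have h3 := h (t.right * ω)
    rw [mem_conjSub, inv_mul_cancel_left] at h3
    rw [h2]
    exact h3

lemma mem_NN_Pa (t : Wr G A A) (Q : A → Subgroup G) :
    t ∈ NN (Pa Q) ↔ ∀ ω, conjSub (t.left ω) (Q (t.right⁻¹ * ω)) = Q ω := by
  change t ∈ Subgroup.normalizer (Pa Q : Set (Wr G A A)) ↔ _
  rw [← conjSub_eq_iff, conj_Pa]
  constructor
  · intro h ω
    exact congrFun (Pa_inj h) ω
  · intro h
    congr 1
    exact funext h

lemma mem_NN_base {t : Wr G A A} (ht : t.right = 1) (Q : A → Subgroup G) :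
    t ∈ NN (Pa Q) ↔ ∀ ω, t.left ω ∈ NN (Q ω) := by
  rw [mem_NN_Pa, ht]
  refine forall_congr' fun ω => ?_
  rw [inv_one, one_mul, conjSub_eq_iff]

/-- the part of the normaliser in the base group -/
def N0 (Q : A → Subgroup G) : Subgroup (NN (Pa Q)) :=
  ((SemidirectProduct.rightHom : Wr G A A →* A).comp (NN (Pa Q)).subtype).ker

instance N0_normal (Q : A → Subgroup G) : (N0 Q).Normal := MonoidHom.normal_ker _

lemma mem_N0 {Q : A → Subgroup G} {x : NN (Pa Q)} : x ∈ N0 Q ↔ (x : Wr G A A).right = 1 := Iff.rfl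

/-- the part in the base group is a product -/
def e0 (Q : A → Subgroup G) : N0 Q ≃* (∀ ω, NN (Q ω)) where
  toFun y := fun ω => ⟨y.1.1.left ω, (mem_NN_base y.2 Q).mp y.1.2 ω⟩
  invFun m := ⟨⟨⟨fun ω => (m ω : G), 1⟩, (mem_NN_base rfl Q).mpr fun ω => (m ω).2⟩, rfl⟩
  left_inv := by
    intro y
    apply Subtype.ext
    apply Subtype.ext
    exact SemidirectProduct.ext rfl (mem_N0.mp y.2).symm
  right_inv := fun m => rfl
  map_mul' := by
    intro x y
    funext ω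
    apply Subtype.ext
    change (x.1.1 * y.1.1).left ω = x.1.1.left ω * y.1.1.left ω
    have h : x.1.1.right = 1 := x.2
    rw [mul_lf, h, inv_one, one_mul]

lemma e0_val (Q : A → Subgroup G) (y : N0 Q) (ω : A) :
    ((e0 Q y ω : NN (Q ω)) : G) = y.1.1.left ω := rfl

variable [Fintype A]

/-- the product character -/
def th (Q : A → Subgroup G) (f : ∀ ω, NN (Q ω) → ℂ) (y : N0 Q) : ℂ := pdf f (e0 Q y)

lemma th_val (Q : A → Subgroup G) (f : ∀ ω, NN (Q ω) → ℂ) (y : N0 Q) :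
    th Q f y = ∏ ω, f ω (e0 Q y ω) := rfl

lemma th_one (Q : A → Subgroup G) (f : ∀ ω, NN (Q ω) → ℂ) : th Q f 1 = ∏ ω, f ω 1 := by
  rw [th_val, map_one]
  rfl

/-- the order of a product of subgroups -/
lemma card_Pa [Finite G] (Q : A → Subgroup G) : Nat.card (Pa Q) = ∏ ω, Nat.card (Q ω) := by
  rw [← Nat.card_pi]
  refine Nat.card_congr
    { toFun := fun x => fun ω => ⟨x.1.left ω, x.2.2 ω⟩
      invFun := fun m => ⟨⟨fun ω => (m ω : G), 1⟩, rfl, fun ω => (m ω).2⟩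
      left_inv := ?_
      right_inv := fun m => rfl }
  rintro ⟨x, hx, hx'⟩
  exact Subtype.ext (SemidirectProduct.ext rfl hx.symm)

lemma card_N0 [Finite G] (Q : A → Subgroup G) :
    Nat.card (N0 Q) = ∏ ω, Nat.card (NN (Q ω)) := by
  rw [← Nat.card_pi]
  exact Nat.card_congr (e0 Q).toEquiv

/-- powers of elements of the base group -/
lemma base_pow {x : Wr G A A} (hx : x.right = 1) (n : ℕ) :
    (x ^ n).right = 1 ∧ ∀ ω, (x ^ n).left ω = (x.left ω) ^ n := by
  induction n with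
  | zero => exact ⟨rfl, fun ω => by rw [pow_zero, pow_zero]; rfl⟩
  | succ n ih =>
    rw [pow_succ]
    refine ⟨by rw [SemidirectProduct.mul_right, ih.1, hx, mul_one], fun ω => ?_⟩
    rw [mul_lf, ih.1, inv_one, one_mul, ih.2, pow_succ]

/-- products of `p`-groups -/
lemma Pa_isp {p : ℕ} {Q : A → Subgroup G} (h : ∀ ω, IsPGroup p (Q ω)) :
    IsPGroup p (Pa Q) := by
  rintro ⟨x, hx⟩
  rw [mem_Pa] at hx
  choose k hk using fun ω => h ω ⟨x.left ω, hx.2 ω⟩
  refine ⟨∑ ω, k ω, Subtype.ext ?_⟩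
  change x ^ p ^ (∑ ω, k ω) = 1
  obtain ⟨h1, h2⟩ := base_pow hx.1 (p ^ (∑ ω, k ω))
  refine SemidirectProduct.ext (funext fun ω => ?_) h1
  rw [h2]
  have h3 : (x.left ω) ^ p ^ k ω = 1 := congrArg Subtype.val (hk ω)
  have h4 : k ω ≤ ∑ ω, k ω := Finset.single_le_sum (fun _ _ => Nat.zero_le _) (Finset.mem_univ ω)
  obtain ⟨d, hd⟩ := Nat.exists_eq_add_of_le h4
  rw [hd, pow_add, pow_mul, h3, one_pow]
  rfl

section irr

variable [Fintype G]

lemma th_irr (Q : A → Subgroup G) (f : ∀ ω, NN (Q ω) → ℂ) (hf : ∀ ω, IsIrr (f ω)) :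
    IsIrr (th Q f) := by
  exact Pool.Agent.Q154.AM.irr_surj (e0 Q).toMonoidHom (e0 Q).surjective
    (Pool.Agent.Q154.AM.pd_irr f hf)

lemma th_surj (Q : A → Subgroup G) (θ : N0 Q → ℂ) (hθ : IsIrr θ) :
    ∃ f : ∀ ω, NN (Q ω) → ℂ, (∀ ω, IsIrr (f ω)) ∧ θ = th Q f := by
  have h1 : IsIrr (fun x => θ ((e0 Q).symm x)) :=
    Pool.Agent.Q154.AM.irr_surj (e0 Q).symm.toMonoidHom (e0 Q).symm.surjective hθ
  obtain ⟨f, hf, h2⟩ := Pool.Agent.Q154.AM.pd_surj _ h1
  refine ⟨f, hf, ?_⟩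
  funext y
  have h3 := congrFun h2 (e0 Q y)
  simp only [MulEquiv.symm_apply_apply] at h3
  exact h3

lemma th_inj (Q : A → Subgroup G) (f f' : ∀ ω, NN (Q ω) → ℂ) (hf : ∀ ω, IsIrr (f ω))
    (hf' : ∀ ω, IsIrr (f' ω)) (h : th Q f = th Q f') : f = f' := by
  refine Pool.Agent.Q154.AM.pd_inj f f' hf hf' ?_
  funext m
  have h3 := congrFun h ((e0 Q).symm m)
  unfold th at h3
  rw [MulEquiv.apply_symm_apply] at h3
  exact h3

end irr

end

section conj

variable {G : Type} [Group G]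

lemma NN_cj {P R : Subgroup G} {g : G} (h : conjSub g P = R) {z : G} (hz : z ∈ NN P) :
    g * z * g⁻¹ ∈ NN R := by
  subst h
  exact Pool.Agent.Q261.DC.NN_conj' hz

/-- conjugation of the normaliser -/
def cw {P R : Subgroup G} {g : G} (h : conjSub g P = R) : NN P ≃* NN R where
  toFun x := ⟨g * x * g⁻¹, NN_cj h x.2⟩
  invFun x := ⟨g⁻¹ * x * g, by
    have h1 : conjSub g⁻¹ R = P := by rw [← h, conjSub_inv_conjSub]
    have h2 := NN_cj h1 x.2
    rwa [inv_inv] at h2⟩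
  left_inv x := Subtype.ext (by show g⁻¹ * (g * x * g⁻¹) * g = x; group)
  right_inv x := Subtype.ext (by show g * (g⁻¹ * x * g) * g⁻¹ = x; group)
  map_mul' x y := Subtype.ext (by
    show g * (x * y : G) * g⁻¹ = g * x * g⁻¹ * (g * y * g⁻¹)
    group)

lemma cw_val {P R : Subgroup G} {g : G} (h : conjSub g P = R) (x : NN P) :
    ((cw h x : NN R) : G) = g * x * g⁻¹ := rfl

lemma Ic_cw [Fintype G] {P R : Subgroup G} {g : G} (h : conjSub g P = R) (f : NN R → ℂ) (x : G) :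
    Ic (fun z => f (cw h z)) x = Ic f x := by
  rw [Ic_eq, Ic_eq]
  have h1 : ∀ z : G, ex (L := NN P) (fun z => f (cw h z)) z = ex f (g * z * g⁻¹) := by
    intro z
    unfold ex
    by_cases hz : z ∈ NN P
    · rw [dif_pos hz, dif_pos (NN_cj h hz)]
      change f (cw h ⟨z, hz⟩) / f (cw h 1) = _
      rw [map_one]
      rfl
    · have hz' : g * z * g⁻¹ ∉ NN R := by
        intro h2
        apply hz
        have h3 := ((cw h).symm ⟨_, h2⟩).2
        have h4 : (((cw h).symm ⟨_, h2⟩ : NN P) : G) = z := by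
          change g⁻¹ * (g * z * g⁻¹) * g = z
          group
        rwa [h4] at h3
      rw [dif_neg hz, dif_neg hz']
  rw [Finset.sum_congr rfl fun z _ => h1 z]
  refine Finset.sum_equiv (MulAut.conj g).toEquiv ?_ ?_
  · intro z
    rw [Finset.mem_filter, Finset.mem_filter]
    have h2 : IsConj z (g * z * g⁻¹) := isConj_iff.mpr ⟨g, rfl⟩
    have h3 : (MulAut.conj g).toEquiv z = g * z * g⁻¹ := rfl
    rw [h3]
    exact ⟨fun h => ⟨Finset.mem_univ _, h.2.trans h2⟩, fun h => ⟨Finset.mem_univ _, h.2.trans h2.symm⟩⟩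
  · intro z _
    rfl

end conj

end Pool.Agent.Q176.RB
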