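import Pool.Agent.Q176.RB.Wpa
import Pool.Agent.Q154.AM.Nwt

/-!
# Central characters and weights for product subgroups of a regular wreath product
-/

set_option autoImplicit false

open scoped Classical

noncomputable section

namespace Pool.Agent.Q176.RB

open Pool.Agent.H254R3.IN hiding NN
open Pool.Agent.Y63.KR
open Pool.Agent.Q17.WR
open Pool.Agent.Q17.DC
open Pool.Agent.Q17.AM
open Pool.Agent.Q17.RB
open Pool.Agent.Y63.AWC (mult St mem_St le_St)
open Pool.Agent.Q210.RB (mul_lf inv_lf cj_rt cj_rt1 cj_lf fW indY indY_cl indY_mem isConj_pi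
  red_omega_nca omega_nca block_eq cl1 EX bc_FX shf nca_off)
open Pool.Agent.Q154.AM (pdf Ic ex Ic_eq deg_le')

attribute [local instance] fW

section blk

variable {G : Type} [Group G] [Fintype G] {O : ValuationSubring ℂ}

/-- a central character modulo the maximal ideal determines the block -/
lemma blk_uniq {B B' : Set (G → ℂ)} (hB : IsBlock O B) (hB' : IsBlock O B') (I : G → ℂ)
    (h : ∀ χ ∈ B, ∀ x, omega χ x - I x ∈ O.nonunits)
    (h' : ∀ χ ∈ B', ∀ x, omega χ x - I x ∈ O.nonunits) : B = B' := by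
  obtain ⟨χ, hχ⟩ := hB.nonempty
  obtain ⟨χ', hχ'⟩ := hB'.nonempty
  have h1 : ∀ x, red O (omega χ x) = red O (omega χ' x) := by
    intro x
    rw [(red_congr ((hB.irr χ hχ).omega_mem O x) (h χ hχ x)).2,
      (red_congr ((hB'.irr χ' hχ').omega_mem O x) (h' χ' hχ' x)).2]
  have h2 : χ' ∈ B := by
    by_contra hn
    obtain ⟨x, hx⟩ := hB.exists_ne hχ (hB'.irr χ' hχ') hn
    exact hx (h1 x)
  exact block_eq hB hB' h2 hχ'

end blk

variable {G A : Type} [Group G] [Fintype G] [Group A] [Fintype A] {p : ℕ} [Fact p.Prime]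
  {O : ValuationSubring ℂ}

/-- the components of the family `f` are in blocks which induce the blocks `β (a * ω)` -/
def Bi (O : ValuationSubring ℂ) (β : A → Set (G → ℂ)) {Q : A → Subgroup G}
    (f : ∀ ω, NN (Q ω) → ℂ) (a : A) : Prop :=
  ∀ ω, ∀ χ ∈ β (a * ω), ∀ x, omega χ x - Ic (f ω) x ∈ O.nonunits

/-- the stabiliser -/
theorem st_card {β : A → Set (G → ℂ)} (hB : ∀ ω, IsBlock O (β ω)) (hinj : Function.Injective β)
    {Q : A → Subgroup G} {f : ∀ ω, NN (Q ω) → ℂ} (hf : ∀ ω, IsIrr (f ω)) {a : A}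
    (hbi : Bi O β f a) : Nat.card (St (N0 Q) (th Q f)) = Nat.card (N0 Q) := by
  have hcl : Pool.Agent.Helper884.IC.IsClass (th Q f) := fun x y => (th_irr Q f hf).conj x y
  have key : St (N0 Q) (th Q f) = N0 Q := by
    refine le_antisymm ?_ (le_St (N0 Q) hcl)
    intro t ht
    rw [mem_St] at ht
    rw [mem_N0]
    obtain ⟨b, hb⟩ : ∃ b : A, b = (t : Wr G A A).right := ⟨_, rfl⟩
    have h : ∀ ω, conjSub ((t : Wr G A A).left (b * ω)) (Q ω) = Q (b * ω) := by
      intro ω
      have h1 := (mem_NN_Pa (t : Wr G A A) Q).mp t.2 (b * ω)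
      rwa [← hb, inv_mul_cancel_left] at h1
    have h1 : Pool.Agent.Y63.AWC.cj (N0 Q) t (th Q f) = th Q fun ω z => f (b * ω) (cw (h ω) z) := by
      funext y
      unfold Pool.Agent.Y63.AWC.cj
      rw [th_val, th_val, ← Equiv.prod_comp (Equiv.mulLeft b)
        (fun ω => f ω (e0 Q (MulAut.conjNormal t y) ω))]
      refine Finset.prod_congr rfl fun ω _ => ?_
      have h2 : e0 Q (MulAut.conjNormal t y) ((Equiv.mulLeft b) ω) = cw (h ω) (e0 Q y ω) := by
        apply Subtype.ext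
        rw [e0_val, cw_val, e0_val, MulAut.conjNormal_apply]
        have h3 := cj_lf (t : Wr G A A) (y : Wr G A A) (mem_N0.mp y.2) (b * ω)
        rw [← hb, inv_mul_cancel_left] at h3
        exact h3
      rw [h2]
      rfl
    have h2 : (fun ω (z : NN (Q ω)) => f (b * ω) (cw (h ω) z)) = f := by
      refine th_inj Q _ _ (fun ω => ?_) hf (h1.symm.trans ht)
      exact Pool.Agent.Q154.AM.irr_surj (cw (h ω)).toMonoidHom (cw (h ω)).surjective (hf (b * ω))
    have h3 : ∀ x, Ic (f (b * 1)) x = Ic (f 1) x := by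
      intro x
      have h4 := congrFun h2 1
      rw [← h4]
      exact (Ic_cw (h 1) (f (b * 1)) x).symm
    have h4 : β (a * 1) = β (a * (b * 1)) := by
      refine blk_uniq (hB _) (hB _) (Ic (f 1)) (hbi 1) fun χ hχ x => ?_
      rw [← h3]
      exact hbi (b * 1) χ hχ x
    have h5 := hinj h4
    rw [← hb]
    have h6 := mul_left_cancel h5
    rw [mul_one] at h6
    exact h6.symm
  rw [key]

/-- the value at the class sum of an element of the base group -/
theorem Ic_base {Q : A → Subgroup G} {φ : NN (Pa Q) → ℂ} (hφ : IsIrr φ)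
    {f : ∀ ω, NN (Q ω) → ℂ} (hf : ∀ ω, IsIrr (f ω)) (h : mult (N0 Q) φ (th Q f) ≠ 0)
    (x : Wr G A A) (hx : x.right = 1) :
    Ic φ x = ∑ m : A → G, indY x m * ∏ ω, ex (f ω) (m ω) := by
  let c : NN (Pa Q) → ℂ := fun y => if IsConj x (y : Wr G A A) then 1 else 0
  have hc : ∀ t y : NN (Pa Q), c (t * y * t⁻¹) = c y := by
    intro t y
    have h2 : IsConj (y : Wr G A A) ((t * y * t⁻¹ : NN (Pa Q)) : Wr G A A) :=
      isConj_iff.mpr ⟨(t : Wr G A A), rfl⟩
    have h3 : IsConj x ((t * y * t⁻¹ : NN (Pa Q)) : Wr G A A) ↔ IsConj x (y : Wr G A A) :=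
      ⟨fun h => h.trans h2.symm, fun h => h.trans h2⟩
    show (if _ then (1 : ℂ) else 0) = if _ then 1 else 0
    simp only [h3]
  have h1 : Ic φ x = ∑ y : NN (Pa Q), c y * (φ y / φ 1) := by
    unfold Ic
    rw [finsum_eq_sum_of_fintype]
    have h2 : ∀ y : NN (Pa Q), c y * (φ y / φ 1) =
        if IsConj x (y : Wr G A A) then φ y / φ 1 else 0 := by
      intro y
      show (if _ then (1 : ℂ) else 0) * _ = _
      split_ifs
      · rw [one_mul]
      · rw [zero_mul]
    rw [Finset.sum_congr rfl fun y _ => h2 y, ← Finset.sum_filter]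
    exact (Finset.sum_subtype (Finset.univ.filter fun y : NN (Pa Q) => IsConj x (y : Wr G A A))
      (fun y => by
        rw [Finset.mem_filter]
        exact ⟨fun h => h.2, fun h => ⟨Finset.mem_univ _, h⟩⟩) fun y => φ y / φ 1).symm
  have h2 : ∑ y : NN (Pa Q), c y * (φ y / φ 1) = ∑ y : N0 Q, c y * (φ y / φ 1) := by
    refine Pool.Agent.Y63.AWC.sum_M (N0 Q) (fun y => c y * (φ y / φ 1)) fun y hy => ?_
    have h3 : c y = 0 := by
      refine if_neg fun h4 => hy ?_
      rw [mem_N0]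
      exact ((cl1 x y hx).mp h4).1
    show c y * _ = 0
    rw [h3, zero_mul]
  rw [h1, h2, cov (N0 Q) hφ (th_irr Q f hf) h c hc]
  refine Fintype.sum_of_injective (fun y : N0 Q => y.1.1.left) ?_ _ _ ?_ ?_
  · intro y y' hyy
    apply Subtype.ext
    apply Subtype.ext
    exact SemidirectProduct.ext hyy ((mem_N0.mp y.2).trans (mem_N0.mp y'.2).symm)
  · intro m hm
    have h3 : ∃ ω, m ω ∉ NN (Q ω) := by
      by_contra h4
      push Not at h4
      exact hm ⟨(e0 Q).symm fun ω => ⟨m ω, h4 ω⟩, rfl⟩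
    obtain ⟨ω, hω⟩ := h3
    have h4 : ex (f ω) (m ω) = 0 := by
      unfold ex
      rw [dif_neg hω]
    rw [Finset.prod_eq_zero (Finset.mem_univ ω) h4, mul_zero]
  · intro y
    have h3 : (⟨y.1.1.left, 1⟩ : Wr G A A) = y.1.1 :=
      SemidirectProduct.ext rfl (mem_N0.mp y.2).symm
    have h4 : c y = indY x y.1.1.left := by
      unfold indY
      rw [h3]
    have h5 : th Q f y / th Q f 1 = ∏ ω, ex (f ω) (y.1.1.left ω) := by
      rw [th_val, th_one, ← Finset.prod_div_distrib]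
      refine Finset.prod_congr rfl fun ω _ => ?_
      have h6 : y.1.1.left ω ∈ NN (Q ω) := (e0 Q y ω).2
      unfold ex
      rw [dif_pos h6]
      rfl
    rw [h4, h5]

/-- the same sum, grouped by the classes of the base group -/
theorem Ic_cls {Q : A → Subgroup G} (f : ∀ ω, NN (Q ω) → ℂ) (x : Wr G A A) :
    ∑ m : A → G, indY x m * ∏ ω, ex (f ω) (m ω) =
      ∑ K : ConjClasses (A → G), indY x (rep K) * ∏ ω, Ic (f ω) (rep K ω) := by
  rw [sum_classes]
  refine Finset.sum_congr rfl fun K _ => ?_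
  have h1 : ∀ m ∈ Finset.univ.filter (fun m : A → G => IsConj (rep K) m),
      indY x m * ∏ ω, ex (f ω) (m ω) = indY x (rep K) * ∏ ω, ex (f ω) (m ω) := by
    intro m hm
    rw [(indY_cl x).isConj (Finset.mem_filter.mp hm).2]
  rw [Finset.sum_congr rfl h1, ← Finset.mul_sum]
  congr 1
  have h2 : ∀ ω, Ic (f ω) (rep K ω) =
      ∑ z ∈ Finset.univ.filter (fun z => IsConj (rep K ω) z), ex (f ω) z := fun ω => Ic_eq _ _
  rw [Finset.prod_congr rfl fun ω _ => h2 ω, Finset.prod_univ_sum]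
  refine Finset.sum_congr ?_ fun _ _ => rfl
  ext m
  rw [Fintype.mem_piFinset, Finset.mem_filter, isConj_pi]
  simp only [Finset.mem_filter, Finset.mem_univ, true_and]

/-- the comparison with a character of the wreath product -/
theorem Ic_red (hZ : S_ZPR) {Q : A → Subgroup G} {φ : NN (Pa Q) → ℂ} (hφ : IsIrr φ)
    {f : ∀ ω, NN (Q ω) → ℂ} (hf : ∀ ω, IsIrr (f ω)) (h : mult (N0 Q) φ (th Q f) ≠ 0)
    {c : A → G → ℂ} (hc : ∀ ω, IsIrr (c ω))
    (hcf : ∀ ω x, omega (c ω) x - Ic (f ω) x ∈ O.nonunits)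
    (x : Wr G A A) (hx : x.right = 1) :
    Ic φ x ∈ O ∧ red O (Ic φ x) = red O (omega (nca c) x) := by
  have hI : ∀ ω z, Ic (f ω) z ∈ O ∧ red O (omega (c ω) z) = red O (Ic (f ω) z) := fun ω z =>
    red_congr ((hc ω).omega_mem O z) (hcf ω z)
  have hP : ∀ K : ConjClasses (A → G), _ := fun K =>
    Pool.Agent.Q154.AM.red_prod (O := O) Finset.univ (fun ω => Ic (f ω) (rep K ω))
      fun ω _ => (hI ω _).1
  have hm : ∀ K ∈ (Finset.univ : Finset (ConjClasses (A → G))),
      indY x (rep K) * ∏ ω, Ic (f ω) (rep K ω) ∈ O := fun K _ =>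
    O.mul_mem _ _ (indY_mem O x _) (hP K).1
  rw [Ic_base hφ hf h x hx, Ic_cls]
  refine ⟨sum_mem' _ _ hm, ?_⟩
  rw [red_sum _ _ hm, red_omega_nca hZ c hc x hx]
  refine Finset.sum_congr rfl fun K _ => ?_
  rw [red_mul (indY_mem O x _) (hP K).1, (hP K).2]
  congr 1
  exact Finset.prod_congr rfl fun ω _ => (hI ω _).2.symm

end Pool.Agent.Q176.RB
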